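import Mathlib

namespace Pool.Agent.Results.MP_28c1b3_co.One

open Finset

def Avoiding {n : ℕ} (t : ℕ) (F : Finset (Finset (Fin n))) : Prop :=
  ∀ A ∈ F, ∀ B ∈ F, A ≠ B → (A ∩ B).card ≠ t

/-- Ordered pairs of distinct disjoint members. -/
def pairs {n : ℕ} (F : Finset (Finset (Fin n))) : Finset (Finset (Fin n) × Finset (Fin n)) :=
  (F ×ˢ F).filter (fun p => p.1 ≠ p.2 ∧ Disjoint p.1 p.2)

/-- The number of unordered pairs of distinct disjoint members. -/
def d {n : ℕ} (F : Finset (Finset (Fin n))) : ℕ :=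
  ((pairs F).image (fun p => s(p.1, p.2))).card

def Fstar (n t : ℕ) : Finset (Finset (Fin n)) :=
  univ.filter (fun A => (if (n + t) % 2 = 1 then n + t + 1 ≤ 2 * A.card
    else n + t ≤ 2 * (A.filter (fun i => i.val ≠ 0)).card) ∨ A.card + 1 ≤ t)

def F1 (m : ℕ) : Finset (Finset (Fin (m + 1))) :=
  univ.filter (fun A => (0 ∉ A ∧ m + 2 ≤ 2 * A.card) ∨ A = ∅ ∨ A = {0})

lemma big_inter {m : ℕ} {A B : Finset (Fin (m + 1))} (ha : 0 ∉ A) (hb : 0 ∉ B)
    (h1 : m + 2 ≤ 2 * A.card) (h2 : m + 2 ≤ 2 * B.card) : 2 ≤ (A ∩ B).card := by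
  have h3 := card_union_add_card_inter A B
  have h4 : (A ∪ B).card ≤ (univ.erase (0 : Fin (m + 1))).card := by
    apply card_le_card
    intro x hx
    simp only [mem_erase, mem_univ, and_true]
    rintro rfl
    simp [ha, hb] at hx
  rw [card_erase_of_mem (mem_univ _)] at h4
  simp only [card_univ, Fintype.card_fin, add_tsub_cancel_right] at h4
  omega

lemma filt {m : ℕ} (A : Finset (Fin (m + 1))) : A.filter (fun i => i.val ≠ 0) = A.erase 0 := by
  ext x; simp [and_comm]

theorem result (n : ℕ) (hn : Odd n) :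
    ∃ F : Finset (Finset (Fin n)), Avoiding 1 F ∧ d (Fstar n 1) < d F := by
  obtain ⟨m, rfl⟩ : ∃ m, n = m + 1 := ⟨n - 1, by have := hn.pos; omega⟩
  have hm : ¬ (m + 1 + 1) % 2 = 1 := by obtain ⟨k, hk⟩ := hn; omega
  refine ⟨F1 m, ?_, ?_⟩
  · intro A hA B hB hne
    simp only [F1, mem_filter, mem_univ, true_and] at hA hB
    rcases hA with ⟨a1, a2⟩ | rfl | rfl <;> rcases hB with ⟨b1, b2⟩ | rfl | rfl
    · have := big_inter a1 b1 a2 b2; omega
    all_goals simp_all
  · have mem : ∀ A, A ∈ Fstar (m + 1) 1 ↔ m + 2 ≤ 2 * (A.erase 0).card ∨ A = ∅ := by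
      intro A
      simp only [Fstar, mem_filter, mem_univ, true_and, if_neg hm, filt]
      rw [← card_eq_zero]
      omega
    set Big : Finset (Finset (Fin (m + 1))) :=
      univ.filter (fun A => m + 2 ≤ 2 * (A.erase 0).card) with hBig
    have h1 : d (Fstar (m + 1) 1) ≤ Big.card := by
      refine le_trans (card_le_card ?_) (card_image_le (f := fun A => s(∅, A)) (s := Big))
      intro z hz
      obtain ⟨⟨A, B⟩, hp, rfl⟩ := mem_image.1 hz
      simp only [pairs, mem_filter, mem_product, mem] at hp
      obtain ⟨⟨hA, hB⟩, hne, hd⟩ := hp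
      rcases hA with hA | rfl <;> rcases hB with hB | rfl
      · have h2 := big_inter (notMem_erase 0 A) (notMem_erase 0 B) hA hB
        have h3 : Disjoint (A.erase 0) (B.erase 0) :=
          hd.mono (erase_subset _ _) (erase_subset _ _)
        rw [disjoint_iff_inter_eq_empty.1 h3] at h2
        simp at h2
      · exact mem_image.2 ⟨A, by simp [hBig, hA], Sym2.eq_swap⟩
      · exact mem_image.2 ⟨B, by simp [hBig, hB], rfl⟩
      · exact absurd rfl hne
    have h3 : (insert {0} Big).card ≤ d (F1 m) := by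
      apply card_le_card_of_injOn (fun A => if A = {0} then s(∅, {0})
        else s(A.filter (· = 0), A.erase 0))
      · intro A hA
        simp only [coe_image, Set.mem_image, mem_coe]
        by_cases h0 : A = {0}
        · exact ⟨(∅, {0}), by simp [pairs, F1], by simp [h0]⟩
        · have hb : m + 2 ≤ 2 * (A.erase 0).card := by simpa [hBig, h0] using hA
          refine ⟨(A.filter (· = 0), A.erase 0), ?_, by simp [h0]⟩
          simp only [pairs, F1, mem_filter, mem_product, mem_univ, true_and]
          have hd : Disjoint (A.filter (· = 0)) (A.erase 0) := by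
            rw [disjoint_left]; intro x hx; simp [(mem_filter.1 hx).2]
          refine ⟨⟨Or.inr ?_, Or.inl ⟨notMem_erase _ _, hb⟩⟩, fun e => ?_, hd⟩
          · rw [filter_eq']; split_ifs <;> simp
          · rw [e, disjoint_self] at hd
            rw [hd] at hb
            simp at hb
      · intro A hA B hB e
        have un : ∀ A : Finset (Fin (m + 1)), A = {0} ∨ A ≠ {0} → ∀ X Y : Finset (Fin (m + 1)),
            (if A = {0} then s(∅, {0}) else s(A.filter (· = 0), A.erase 0)) = s(X, Y) →
            X ∪ Y = A := by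
          intro A _ X Y h
          have u : A.filter (· = 0) ∪ A.erase 0 = A := by
            ext x; by_cases hx : x = 0 <;> simp [hx]
          split_ifs at h with h0
          · rcases Sym2.eq_iff.1 h with ⟨rfl, rfl⟩ | ⟨rfl, rfl⟩ <;> simp [h0]
          · rcases Sym2.eq_iff.1 h with ⟨rfl, rfl⟩ | ⟨rfl, rfl⟩
            · exact u
            · rw [union_comm]; exact u
        simp only at e
        obtain ⟨⟨X, Y⟩, hXY⟩ := Quot.exists_rep
          (if B = {0} then s(∅, {0}) else s(B.filter (· = 0), B.erase 0))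
        exact (un A (em _) X Y (e.trans hXY.symm)).symm.trans (un B (em _) X Y hXY.symm)
    have h4 : (insert {0} Big).card = Big.card + 1 := by
      rw [card_insert_of_notMem]; simp [hBig]
    omega

end Pool.Agent.Results.MP_28c1b3_co.One
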